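import Pool.Agent.Helper44.CI.Final

/-!
# Conformal invariants built only from the Schouten tensor

For every even `n ≥ 4` there is no nonzero scalar conformal invariant of weight `-n` in dimension
`n` which is a linear combination of complete contractions of covariant derivatives of the Schouten
tensor.
-/

open Pool.Agent.Helper44.CI

/-- Let `n ≥ 4` be even and let `c` be a linear combination, with real coefficients, of complete
contractions of the tensors `∇^l P`, `l ≥ 0`, such that the scalar `scalar c g` which it assigns to
the metrics `g` on open subsets of `ℝⁿ` is conformally invariant of weight `-n`. Then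
`scalar c g = 0` for all these metrics. -/
theorem Pool.Agent.Results.MP_674932_gt.NoSchoutenInvariant.result
    (n : ℕ) (hn : Even n) (hn4 : 4 ≤ n) (c : Contraction →₀ ℝ)
    (hc : IsConformalInvariant n (-(n : ℝ)) c)
    (U : Set (Fin n → ℝ)) (hU : IsOpen U)
    (g : Fin n → Fin n → (Fin n → ℝ) → ℝ) (hg : IsMetricOn U g)
    (x : Fin n → ℝ) (hx : x ∈ U) : scalar c g x = 0 :=
  main hn hn4 c hc U hU g hg x hx
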